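import Mathlib

set_option autoImplicit false

open scoped Pointwise

namespace Pool.Agent.Variants.MP_cd64ef_nt.CounterexampleAsWorded

/-- The number of pairs (a, b) in A × B with a + b = g. -/
noncomputable def rep {G : Type} [AddCommGroup G] (A B : Finset G) (g : G) : ℕ :=
  Set.ncard {p : G × G | p.1 ∈ A ∧ p.2 ∈ B ∧ p.1 + p.2 = g}

/-- The t-popular sumset of A and B. -/
def popSum {G : Type} [AddCommGroup G] (A B : Finset G) (t : ℕ) : Set G :=
  {g | t ≤ rep A B g}

/-- The stabilizer of X: all e with e + X = X. -/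
def stab {G : Type} [AddCommGroup G] (X : Set G) : Set G :=
  {e | (fun x => e + x) '' X = X}

/-- The set Z/h × {0, 1} in Z/h × Z/3. -/
def exA (h : ℕ) [NeZero h] : Finset (ZMod h × ZMod 3) := Finset.univ ×ˢ {0, 1}

lemma mem_exA (h : ℕ) [NeZero h] (a : ZMod h × ZMod 3) : a ∈ exA h ↔ a.2 = 0 ∨ a.2 = 1 := by
  simp [exA]

lemma card_exA (h : ℕ) [NeZero h] : (exA h).card = 2 * h := by
  have : ({0, 1} : Finset (ZMod 3)).card = 2 := by decide
  simp [exA, Finset.card_product, this, ZMod.card, mul_comm]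

lemma ncard_prod (h : ℕ) [NeZero h] (S : Finset (ZMod 3)) :
    Set.ncard {a : ZMod h × ZMod 3 | a.2 ∈ S} = h * S.card := by
  have : {a : ZMod h × ZMod 3 | a.2 ∈ S} =
      ((Finset.univ ×ˢ S : Finset (ZMod h × ZMod 3)) : Set (ZMod h × ZMod 3)) := by
    ext a
    simp
  rw [this, Set.ncard_coe_finset, Finset.card_product]
  simp [ZMod.card]

lemma rep_exA (h : ℕ) [NeZero h] (g : ZMod h × ZMod 3) :
    rep (exA h) (exA h) g = h * (if g.2 = 1 then 2 else 1) := by
  classical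
  set S : Finset (ZMod 3) :=
    Finset.univ.filter (fun y => (y = 0 ∨ y = 1) ∧ (g.2 - y = 0 ∨ g.2 - y = 1)) with hS
  have h1 : {p : (ZMod h × ZMod 3) × (ZMod h × ZMod 3) |
      p.1 ∈ exA h ∧ p.2 ∈ exA h ∧ p.1 + p.2 = g} =
      (fun a => (a, g - a)) '' {a : ZMod h × ZMod 3 | a.2 ∈ S} := by
    ext ⟨a, b⟩
    simp only [Set.mem_ofPred_eq, mem_exA, Set.mem_image, hS, Finset.mem_filter, Finset.mem_univ,
      true_and, Prod.mk.injEq]
    constructor
    · rintro ⟨ha, hb, rfl⟩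
      exact ⟨a, ⟨ha, by simpa using hb⟩, rfl, by simp⟩
    · rintro ⟨x, ⟨h1, h2⟩, rfl, rfl⟩
      exact ⟨h1, by simpa using h2, by simp⟩
  have h2 : ∀ z : ZMod 3, (Finset.univ.filter
      (fun y : ZMod 3 => (y = 0 ∨ y = 1) ∧ (z - y = 0 ∨ z - y = 1))).card =
      if z = 1 then 2 else 1 := by decide
  unfold rep
  rw [h1, Set.ncard_image_of_injective _ (fun a b hab => (Prod.mk.inj hab).1), ncard_prod]
  congr 1
  rw [hS]
  convert h2 g.2

lemma pop_low (h : ℕ) [NeZero h] (i : ℕ) (hi : i ≤ h) :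
    popSum (exA h) (exA h) i = Set.univ := by
  ext g
  simp only [popSum, Set.mem_ofPred_eq, rep_exA, Set.mem_univ, iff_true]
  split_ifs <;> omega

lemma pop_top (h : ℕ) [NeZero h] :
    popSum (exA h) (exA h) (h + 1) = {a : ZMod h × ZMod 3 | a.2 ∈ ({1} : Finset (ZMod 3))} := by
  have := NeZero.pos h
  ext g
  simp only [popSum, Set.mem_ofPred_eq, rep_exA, Finset.mem_singleton]
  split_ifs with hg
  · simp only [hg, iff_true]
    omega
  · simp only [hg, iff_false]
    omega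

lemma stab_top (h : ℕ) [NeZero h] :
    stab (popSum (exA h) (exA h) (h + 1)) =
      {a : ZMod h × ZMod 3 | a.2 ∈ ({0} : Finset (ZMod 3))} := by
  rw [pop_top]
  ext e
  simp only [stab, Set.mem_ofPred_eq, Finset.mem_singleton]
  constructor
  · intro he
    have : e + (0, 1) ∈ {a : ZMod h × ZMod 3 | a.2 = 1} := by
      rw [← he]
      exact ⟨(0, 1), rfl, rfl⟩
    simpa using this
  · intro he
    ext x
    simp only [Set.mem_image, Set.mem_ofPred_eq]
    constructor
    · rintro ⟨y, hy, rfl⟩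
      simp [he, hy]
    · intro hx
      exact ⟨x - e, by simp [he, hx], by simp⟩

lemma stab_univ {G : Type} [AddCommGroup G] : stab (Set.univ : Set G) = Set.univ := by
  ext e
  simp only [stab, Set.mem_ofPred_eq, Set.mem_univ, iff_true, Set.image_univ]
  exact Set.range_eq_univ.mpr (fun x => ⟨x - e, by simp⟩)

theorem result (t : ℕ) (ht : 3 ≤ t) :
    ∃ (G : Type) (_ : AddCommGroup G) (_ : Finite G) (A B : Finset G) (s u : ℕ),
      t ≤ A.card ∧ t ≤ B.card ∧
      (∑ i ∈ Finset.Icc 1 t, ((popSum A B i).ncard : ℤ)) <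
        (t : ℤ) * A.card + (t : ℤ) * B.card - (t : ℤ) ^ 2 ∧
      t = s * (stab (popSum A B t)).ncard + u ∧ 1 ≤ u ∧ u ≤ (stab (popSum A B t)).ncard ∧
      ¬ ∃ A' B' : Finset G, A' ⊆ A ∧ B' ⊆ B ∧
        ((A : Set G) \ (A' : Set G)).ncard + ((B : Set G) \ (B' : Set G)).ncard < u ∧
        ((A' : Set G) + (B' : Set G) = popSum A' B' u ∧ popSum A' B' u = popSum A B u) ∧
        (stab ((A' : Set G) + (B' : Set G)) = stab (popSum A' B' u) ∧
          stab (popSum A' B' u) = stab (popSum A B t)) := by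
  obtain ⟨h, rfl⟩ : ∃ h, t = h + 1 := ⟨t - 1, by omega⟩
  have : NeZero h := ⟨by omega⟩
  have hst : (stab (popSum (exA h) (exA h) (h + 1))).ncard = h := by
    rw [stab_top, ncard_prod]
    simp
  refine ⟨ZMod h × ZMod 3, inferInstance, inferInstance, exA h, exA h, 1, 1, ?_, ?_, ?_, ?_,
    le_rfl, ?_, ?_⟩
  · rw [card_exA]; omega
  · rw [card_exA]; omega
  · rw [Finset.sum_Icc_succ_top (by omega), pop_top, ncard_prod, card_exA]
    have : ∑ i ∈ Finset.Icc 1 h, ((popSum (exA h) (exA h) i).ncard : ℤ) =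
        ∑ i ∈ Finset.Icc 1 h, (3 * h : ℤ) := by
      refine Finset.sum_congr rfl (fun i hi => ?_)
      rw [pop_low h i (Finset.mem_Icc.mp hi).2, Set.ncard_univ]
      simp [mul_comm]
    rw [this]
    simp only [Finset.sum_const, Nat.card_Icc, Finset.card_singleton, nsmul_eq_mul]
    have h2 : (2 : ℤ) ≤ h := by exact_mod_cast (by omega : 2 ≤ h)
    push_cast
    nlinarith
  · rw [hst]; omega
  · rw [hst]; omega
  · rintro ⟨A', B', -, -, -, ⟨-, h2⟩, -, h3⟩
    rw [h2, pop_low h 1 (by omega), stab_univ, stab_top] at h3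
    have : ((0, 1) : ZMod h × ZMod 3) ∈
        {a : ZMod h × ZMod 3 | a.2 ∈ ({0} : Finset (ZMod 3))} := by
      rw [← h3]
      trivial
    simp only [Set.mem_ofPred_eq, Finset.mem_singleton] at this
    exact absurd this (by decide)

end Pool.Agent.Variants.MP_cd64ef_nt.CounterexampleAsWorded
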